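import Mathlib

/-! Swarm GL, part F07: parametric holomorphic Picard iteration. -/

set_option autoImplicit false

open Metric Set Filter Topology MeasureTheory Interval

namespace Pool.GL.Helper71

theorem seg_mem {a s : ℂ} {η : ℝ} (hs : s ∈ ball a η) {θ : ℝ} (hθ : θ ∈ Icc (0:ℝ) 1) :
    a + (θ:ℂ) * (s - a) ∈ ball a η := by
  rw [mem_ball, dist_eq_norm] at hs ⊢
  have : a + (θ:ℂ) * (s - a) - a = (θ:ℂ) * (s - a) := by ring
  rw [this, norm_mul, Complex.norm_real, Real.norm_of_nonneg hθ.1]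
  calc θ * ‖s - a‖ ≤ 1 * ‖s - a‖ := by gcongr; exact hθ.2
    _ < η := by simpa using hs

theorem radial_prim (a : ℂ) (η : ℝ) (g : ℂ → ℂ) (hg : DifferentiableOn ℂ g (ball a η)) (s : ℂ)
    (hs : s ∈ ball a η) :
    HasDerivAt (fun s => (s - a) * ∫ θ in (0:ℝ)..1, g (a + (θ:ℂ) * (s - a))) (g s) s := by
  obtain ⟨P, hP⟩ := hg.isExactOn_ball
  have key : ∀ s ∈ ball a η,
      (s - a) * ∫ θ in (0:ℝ)..1, g (a + (θ:ℂ) * (s - a)) = P s - P a := by
    intro s hs
    have hmem : ∀ θ ∈ Icc (0:ℝ) 1, a + (θ:ℂ) * (s - a) ∈ ball a η := fun θ hθ => seg_mem hs hθ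
    have h1 : ∀ θ ∈ uIcc (0:ℝ) 1, HasDerivAt (fun θ : ℝ => P (a + (θ:ℂ) * (s - a)))
        ((s-a) * g (a + (θ:ℂ) * (s - a))) θ := by
      intro θ hθ
      rw [uIcc_of_le zero_le_one] at hθ
      have h2 := hP _ (hmem θ hθ)
      have h3 : HasDerivAt (fun θ : ℝ => a + (θ:ℂ) * (s - a)) (s - a) θ := by
        have := ((Complex.ofRealCLM.hasDerivAt (x := θ)).mul_const (s - a)).const_add a
        simpa using this
      have := HasDerivAt.scomp θ h2 h3
      simpa [smul_eq_mul, Function.comp_def] using this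
    have h4 : IntervalIntegrable (fun θ : ℝ => (s-a) * g (a + (θ:ℂ) * (s - a))) volume 0 1 := by
      apply ContinuousOn.intervalIntegrable
      rw [uIcc_of_le zero_le_one]
      apply ContinuousOn.mul continuousOn_const
      exact hg.continuousOn.comp (by fun_prop) hmem
    have h5 := intervalIntegral.integral_eq_sub_of_hasDerivAt h1 h4
    rw [intervalIntegral.integral_const_mul] at h5
    simpa using h5
  have h6 : HasDerivAt (fun s => P s - P a) (g s) s := (hP s hs).sub_const _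
  exact h6.congr_of_eventuallyEq
    (by filter_upwards [isOpen_ball.mem_nhds hs] with x hx using key x hx)

theorem param_int (δ M : ℝ) (g : ℝ → ℂ → ℂ)
    (hz : ∀ θ ∈ Icc (0:ℝ) 1, DifferentiableOn ℂ (g θ) (ball 0 δ))
    (hc : ∀ z ∈ ball (0:ℂ) δ, ContinuousOn (fun θ => g θ z) (Icc 0 1))
    (hM : ∀ θ ∈ Icc (0:ℝ) 1, ∀ z ∈ ball (0:ℂ) δ, ‖g θ z‖ ≤ M) :
    DifferentiableOn ℂ (fun z => ∫ θ in (0:ℝ)..1, g θ z) (ball 0 δ) := by
  intro z₀ hz₀
  obtain ⟨r, hr, hrs⟩ := Metric.isOpen_iff.1 isOpen_ball z₀ hz₀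
  have hder : ∀ θ ∈ Icc (0:ℝ) 1, ∀ x ∈ ball z₀ (r/2), ‖deriv (g θ) x‖ ≤ M / (r/4) := by
    intro θ hθ x hx
    have hsub : closedBall x (r/4) ⊆ ball (0:ℂ) δ := by
      refine subset_trans ?_ hrs
      intro y hy
      rw [mem_closedBall] at hy
      rw [mem_ball] at hx ⊢
      have := dist_triangle y x z₀
      linarith
    apply Complex.norm_deriv_le_of_forall_mem_sphere_norm_le (by linarith)
    · apply DifferentiableOn.diffContOnCl
      apply (hz θ hθ).mono
      exact closure_ball_subset_closedBall.trans hsub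
    · intro y hy
      exact hM θ hθ y (hsub (sphere_subset_closedBall hy))
  have hsub2 : ball z₀ (r/2) ⊆ ball (0:ℂ) δ :=
    (ball_subset_ball (by linarith)).trans hrs
  have hIoc : Ι (0:ℝ) 1 ⊆ Icc 0 1 := by
    rw [uIoc_of_le zero_le_one]; exact Ioc_subset_Icc_self
  have hint : ∀ z ∈ ball (0:ℂ) δ, IntervalIntegrable (fun θ => g θ z) volume 0 1 := by
    intro z hz
    apply ContinuousOn.intervalIntegrable
    rw [uIcc_of_le zero_le_one]
    exact hc z hz
  have hmeas : ∀ z ∈ ball (0:ℂ) δ,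
      AEStronglyMeasurable (fun θ => g θ z) (volume.restrict (Ι (0:ℝ) 1)) := by
    intro z hz
    rw [uIoc_of_le zero_le_one]
    exact ((hint z hz).1).aestronglyMeasurable
  have hdiff : ∀ θ ∈ Icc (0:ℝ) 1, ∀ x ∈ ball z₀ (r/2), HasDerivAt (g θ) (deriv (g θ) x) x := by
    intro θ hθ x hx
    exact ((hz θ hθ).differentiableAt (isOpen_ball.mem_nhds (hsub2 hx))).hasDerivAt
  have hres := intervalIntegral.hasDerivAt_integral_of_dominated_loc_of_deriv_le
    (μ := volume) (a := 0) (b := 1) (F := fun z θ => g θ z) (F' := fun z θ => deriv (g θ) z)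
    (x₀ := z₀) (s := ball z₀ (r/2)) (bound := fun _ => M / (r/4))
    (ball_mem_nhds z₀ (by linarith))
    (by
      filter_upwards [isOpen_ball.mem_nhds hz₀] with z hz using hmeas z hz)
    (hint z₀ hz₀)
    (by
      have hlim : ∀ θ ∈ Icc (0:ℝ) 1, Tendsto
          (fun n : ℕ => ((((n:ℂ) + 1)⁻¹ : ℂ) * (r/2 : ℂ))⁻¹ *
            (g θ (z₀ + ((n:ℂ) + 1)⁻¹ * (r/2 : ℂ)) - g θ z₀))
          atTop (𝓝 (deriv (g θ) z₀)) := by
        intro θ hθ
        have h1 := (hdiff θ hθ z₀ (mem_ball_self (by linarith))).tendsto_slope_zero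
        have h2 : Tendsto (fun n : ℕ => ((((n:ℂ) + 1)⁻¹ : ℂ) * (r/2 : ℂ))) atTop (𝓝[≠] 0) := by
          rw [tendsto_nhdsWithin_iff]
          constructor
          · have h3 : Tendsto (fun n : ℕ => (((n:ℂ) + 1)⁻¹ : ℂ)) atTop (𝓝 0) := by
              have := (tendsto_one_div_add_atTop_nhds_zero_nat (𝕜 := ℝ))
              have h4 := (Complex.continuous_ofReal.tendsto 0).comp this
              simp only [Function.comp_def] at h4
              refine (h4.congr ?_).trans (by simp)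
              intro n; push_cast; rw [one_div]
            have := h3.mul_const (r/2 : ℂ)
            simpa using this
          · filter_upwards with n
            simp only [mem_compl_iff, mem_singleton_iff, mul_eq_zero, not_or]
            constructor
            · exact inv_ne_zero (Nat.cast_add_one_ne_zero n)
            · have : (r:ℂ) ≠ 0 := by exact_mod_cast hr.ne'
              simpa using this
        have h5 := h1.comp h2
        simpa [Function.comp_def, smul_eq_mul] using h5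
      apply aestronglyMeasurable_of_tendsto_ae (u := atTop)
        (f := fun (n : ℕ) (θ : ℝ) => ((((n:ℂ) + 1)⁻¹ : ℂ) * (r/2 : ℂ))⁻¹ *
            (g θ (z₀ + ((n:ℂ) + 1)⁻¹ * (r/2 : ℂ)) - g θ z₀))
      · intro n
        apply AEStronglyMeasurable.const_mul
        apply AEStronglyMeasurable.sub
        · apply hmeas
          apply hrs
          rw [mem_ball, dist_eq_norm, add_sub_cancel_left, norm_mul, norm_inv]
          have h6 : (1:ℝ) ≤ ‖(n:ℂ) + 1‖ := by
            have : ((n:ℂ) + 1) = (((n:ℝ) + 1 : ℝ) : ℂ) := by push_cast; rfl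
            rw [this, Complex.norm_real, Real.norm_of_nonneg (by positivity)]
            have : (0:ℝ) ≤ n := Nat.cast_nonneg n
            linarith
          have h7 : ‖(r/2 : ℂ)‖ = r/2 := by
            have : (r/2 : ℂ) = ((r/2 : ℝ) : ℂ) := by push_cast; rfl
            rw [this, Complex.norm_real, Real.norm_of_nonneg (by linarith)]
          rw [h7]
          have h8 : ‖(n:ℂ) + 1‖⁻¹ ≤ 1 := inv_le_one_of_one_le₀ h6
          nlinarith
        · exact hmeas z₀ hz₀
      · rw [ae_restrict_iff' measurableSet_uIoc]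
        filter_upwards with θ hθ
        exact hlim θ (hIoc hθ))
    (by
      filter_upwards with θ hθ x hx
      exact hder θ (hIoc hθ) x hx)
    (by simp)
    (by
      filter_upwards with θ hθ x hx
      exact hdiff θ (hIoc hθ) x hx)
  exact hres.2.differentiableAt.differentiableWithinAt

theorem exp_lip {x y : ℂ} (hx : ‖x‖ ≤ 1/2) (hy : ‖y‖ ≤ 1/2) :
    ‖Complex.exp x - Complex.exp y‖ ≤ 2 * ‖x - y‖ := by
  have h := Convex.norm_image_sub_le_of_norm_hasDerivWithin_le (f := Complex.exp)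
    (f' := Complex.exp) (s := closedBall (0:ℂ) (1/2)) (C := 2) (x := y) (y := x)
    (fun z _ => (Complex.hasDerivAt_exp z).hasDerivWithinAt)
    (by
      intro z hz
      rw [mem_closedBall, dist_zero_right] at hz
      rw [Complex.norm_exp]
      have h1 : z.re ≤ 1/2 := (Complex.re_le_norm z).trans hz
      have h2 : Real.exp z.re ≤ Real.exp (1/2) := Real.exp_le_exp.2 h1
      have h3 : Real.exp (1/2) ≤ 2 := by
        have h4 : Real.exp (1/2) * Real.exp (1/2) = Real.exp 1 := by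
          rw [← Real.exp_add]; norm_num
        have h5 := Real.exp_one_lt_d9
        nlinarith [Real.exp_pos (1/2 : ℝ)]
      linarith)
    (convex_closedBall _ _) (by simpa using hy) (by simpa using hx)
  exact h

theorem exp_le_two {x : ℂ} (hx : ‖x‖ ≤ 1/2) : ‖Complex.exp x‖ < 2 := by
  rw [Complex.norm_exp]
  have h1 : x.re ≤ 1/2 := (Complex.re_le_norm x).trans hx
  have h2 : Real.exp x.re ≤ Real.exp (1/2) := Real.exp_le_exp.2 h1
  have h3 : Real.exp (1/2) < 2 := by
    have h4 : Real.exp (1/2) * Real.exp (1/2) = Real.exp 1 := by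
      rw [← Real.exp_add]; norm_num
    have h5 := Real.exp_one_lt_d9
    nlinarith [Real.exp_pos (1/2 : ℝ)]
  linarith

theorem exp_ge_half {x : ℂ} (hx : ‖x‖ ≤ 1/2) : 1/2 < ‖Complex.exp x‖ := by
  have h1 : ‖Complex.exp (-x)‖ < 2 := exp_le_two (by simpa using hx)
  have h2 : ‖Complex.exp x‖ * ‖Complex.exp (-x)‖ = 1 := by
    rw [← norm_mul, ← Complex.exp_add]; simp
  have h3 : 0 < ‖Complex.exp x‖ := by
    rw [norm_pos_iff]; exact Complex.exp_ne_zero x
  nlinarith

noncomputable def TT (F : ℂ → ℂ → ℂ) (a : ℂ) (w : ℂ → ℂ → ℂ) : ℂ → ℂ → ℂ :=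
  fun s z => (s - a) * ∫ θ in (0:ℝ)..1, F (a + (θ:ℂ) * (s - a))
    (z * Complex.exp (w (a + (θ:ℂ) * (s - a)) z))

structure Inv (a : ℂ) (η δ : ℝ) (w : ℂ → ℂ → ℂ) : Prop where
  ds : ∀ z ∈ ball (0:ℂ) δ, DifferentiableOn ℂ (fun s => w s z) (ball a η)
  dz : ∀ s ∈ ball a η, DifferentiableOn ℂ (fun z => w s z) (ball 0 δ)
  bd : ∀ s ∈ ball a η, ∀ z ∈ ball (0:ℂ) δ, ‖w s z‖ ≤ 1/2

structure FH (F : ℂ → ℂ → ℂ) (a : ℂ) (η δ M L : ℝ) : Prop where
  ηp : 0 < η
  δp : 0 < δ
  M0 : 0 ≤ M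
  L0 : 0 ≤ L
  diff : DifferentiableOn ℂ (fun q : ℂ × ℂ => F q.1 q.2) (ball a η ×ˢ ball 0 (2*δ))
  bd : ∀ s ∈ ball a η, ∀ z ∈ ball (0:ℂ) (2*δ), ‖F s z‖ ≤ M
  lip : ∀ s ∈ ball a η, ∀ x ∈ ball (0:ℂ) (2*δ), ∀ y ∈ ball (0:ℂ) (2*δ),
    ‖F s x - F s y‖ ≤ L * ‖x - y‖
  Mη : M * η ≤ 1/2
  Lη : η * L * δ * 2 ≤ 1/2

variable {F : ℂ → ℂ → ℂ} {a : ℂ} {η δ M L : ℝ} {w w' : ℂ → ℂ → ℂ}

theorem arg_mem (hw : Inv a η δ w) {s z : ℂ} (hs : s ∈ ball a η) (hz : z ∈ ball (0:ℂ) δ) :
    z * Complex.exp (w s z) ∈ ball (0:ℂ) (2*δ) := by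
  rw [mem_ball, dist_zero_right, norm_mul]
  rw [mem_ball, dist_zero_right] at hz
  have h1 := exp_le_two (hw.bd s hs z (by simpa using hz))
  have h2 := norm_nonneg z
  have h3 := norm_nonneg (Complex.exp (w s z))
  nlinarith

theorem comp_s (hF : FH F a η δ M L) (hw : Inv a η δ w) {z : ℂ} (hz : z ∈ ball (0:ℂ) δ) :
    DifferentiableOn ℂ (fun s => F s (z * Complex.exp (w s z))) (ball a η) := by
  have h1 : DifferentiableOn ℂ (fun s => (s, z * Complex.exp (w s z))) (ball a η) :=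
    differentiableOn_id.prodMk (((hw.ds z hz).cexp).const_mul z)
  exact hF.diff.comp h1 (fun s hs => ⟨hs, arg_mem hw hs hz⟩)

theorem comp_z (hF : FH F a η δ M L) (hw : Inv a η δ w) {s : ℂ} (hs : s ∈ ball a η) :
    DifferentiableOn ℂ (fun z => F s (z * Complex.exp (w s z))) (ball 0 δ) := by
  have h1 : DifferentiableOn ℂ (fun z => (s, z * Complex.exp (w s z))) (ball 0 δ) :=
    (differentiableOn_const s).prodMk (differentiableOn_id.mul ((hw.dz s hs).cexp))
  exact hF.diff.comp h1 (fun z hz => ⟨hs, arg_mem hw hs hz⟩)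

theorem cont_θ (hF : FH F a η δ M L) (hw : Inv a η δ w) {s z : ℂ} (hs : s ∈ ball a η)
    (hz : z ∈ ball (0:ℂ) δ) :
    ContinuousOn (fun θ : ℝ => F (a + (θ:ℂ) * (s - a))
      (z * Complex.exp (w (a + (θ:ℂ) * (s - a)) z))) (Icc 0 1) :=
  (comp_s hF hw hz).continuousOn.comp (by fun_prop) (fun _ hθ => seg_mem hs hθ)

theorem TT_deriv (hF : FH F a η δ M L) (hw : Inv a η δ w) {s z : ℂ} (hs : s ∈ ball a η)
    (hz : z ∈ ball (0:ℂ) δ) :
    HasDerivAt (fun s => TT F a w s z) (F s (z * Complex.exp (w s z))) s :=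
  radial_prim a η _ (comp_s hF hw hz) s hs

theorem TT_bound (hF : FH F a η δ M L) (hw : Inv a η δ w) {s z : ℂ} (hs : s ∈ ball a η)
    (hz : z ∈ ball (0:ℂ) δ) : ‖TT F a w s z‖ ≤ M * η := by
  unfold TT
  rw [norm_mul]
  have h1 : ‖∫ θ in (0:ℝ)..1, F (a + (θ:ℂ) * (s - a))
      (z * Complex.exp (w (a + (θ:ℂ) * (s - a)) z))‖ ≤ M * |1 - 0| := by
    apply intervalIntegral.norm_integral_le_of_norm_le_const
    intro θ hθ
    rw [uIoc_of_le zero_le_one] at hθ
    have hm := seg_mem hs (Ioc_subset_Icc_self hθ)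
    exact hF.bd _ hm _ (arg_mem hw hm hz)
  have h2 : ‖s - a‖ < η := by simpa [mem_ball, dist_eq_norm] using hs
  have h3 := hF.M0
  have h4 := hF.ηp
  simp only [sub_zero, abs_one, mul_one] at h1
  calc _ ≤ η * M := by gcongr
    _ = M * η := mul_comm _ _

theorem TT_inv (hF : FH F a η δ M L) (hw : Inv a η δ w) : Inv a η δ (TT F a w) where
  ds z hz := fun s hs => (TT_deriv hF hw hs hz).differentiableAt.differentiableWithinAt
  dz s hs := by
    apply DifferentiableOn.const_mul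
    apply param_int δ M
    · intro θ hθ
      exact comp_z hF hw (seg_mem hs hθ)
    · intro z hz
      exact cont_θ hF hw hs hz
    · intro θ hθ z hz
      exact hF.bd _ (seg_mem hs hθ) _ (arg_mem hw (seg_mem hs hθ) hz)
  bd s hs z hz := (TT_bound hF hw hs hz).trans hF.Mη

theorem TT_lip (hF : FH F a η δ M L) (hw : Inv a η δ w) (hw' : Inv a η δ w') (C : ℝ)
    (hC : ∀ s ∈ ball a η, ∀ z ∈ ball (0:ℂ) δ, ‖w s z - w' s z‖ ≤ C)
    {s z : ℂ} (hs : s ∈ ball a η) (hz : z ∈ ball (0:ℂ) δ) :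
    ‖TT F a w s z - TT F a w' s z‖ ≤ C / 2 := by
  unfold TT
  rw [← mul_sub, norm_mul]
  have hC0 : 0 ≤ C := (norm_nonneg _).trans (hC s hs z hz)
  have hi : ∀ v, Inv a η δ v → IntervalIntegrable (fun θ : ℝ => F (a + (θ:ℂ) * (s - a))
      (z * Complex.exp (v (a + (θ:ℂ) * (s - a)) z))) volume 0 1 := by
    intro v hv
    apply ContinuousOn.intervalIntegrable
    rw [uIcc_of_le zero_le_one]
    exact cont_θ hF hv hs hz
  rw [← intervalIntegral.integral_sub (hi w hw) (hi w' hw')]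
  have hz' : ‖z‖ < δ := by simpa using hz
  have hL := hF.L0
  have h1 : ‖∫ θ in (0:ℝ)..1, (F (a + (θ:ℂ) * (s - a))
      (z * Complex.exp (w (a + (θ:ℂ) * (s - a)) z)) - F (a + (θ:ℂ) * (s - a))
      (z * Complex.exp (w' (a + (θ:ℂ) * (s - a)) z)))‖ ≤ (L * (δ * (2 * C))) * |1 - 0| := by
    apply intervalIntegral.norm_integral_le_of_norm_le_const
    intro θ hθ
    rw [uIoc_of_le zero_le_one] at hθ
    have hm := seg_mem hs (Ioc_subset_Icc_self hθ)
    refine (hF.lip _ hm _ (arg_mem hw hm hz) _ (arg_mem hw' hm hz)).trans ?_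
    rw [← mul_sub, norm_mul]
    have h2 := exp_lip (hw.bd _ hm z hz) (hw'.bd _ hm z hz)
    have h3 := hC _ hm z hz
    have hδ := hF.δp
    gcongr
    linarith
  have h2 : ‖s - a‖ < η := by simpa [mem_ball, dist_eq_norm] using hs
  simp only [sub_zero, abs_one, mul_one] at h1
  have hη := hF.ηp
  have hδ := hF.δp
  calc _ ≤ η * (L * (δ * (2 * C))) := by gcongr
    _ = (η * L * δ * 2) * C := by ring
    _ ≤ (1/2) * C := by gcongr; exact hF.Lη
    _ = C / 2 := by ring

noncomputable def WW (F : ℂ → ℂ → ℂ) (a : ℂ) : ℕ → ℂ → ℂ → ℂ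
  | 0 => fun _ _ => 0
  | n + 1 => TT F a (WW F a n)

theorem WW_inv (hF : FH F a η δ M L) (n : ℕ) : Inv a η δ (WW F a n) := by
  induction n with
  | zero =>
    refine ⟨fun z _ => differentiableOn_const _, fun s _ => differentiableOn_const _, ?_⟩
    intro s _ z _
    simp [WW]
  | succ n ih => exact TT_inv hF ih

theorem WW_diff (hF : FH F a η δ M L) (n : ℕ) :
    ∀ s ∈ ball a η, ∀ z ∈ ball (0:ℂ) δ, ‖WW F a (n+1) s z - WW F a n s z‖ ≤ (1/2) * (1/2)^n := by
  induction n with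
  | zero =>
    intro s hs z hz
    have := (WW_inv hF 1).bd s hs z hz
    simpa [WW] using this
  | succ n ih =>
    intro s hs z hz
    have := TT_lip hF (WW_inv hF (n+1)) (WW_inv hF n) _ ih hs hz
    calc _ ≤ _ := this
      _ = _ := by ring

theorem picard (hF : FH F a η δ M L) : ∃ w : ℂ → ℂ → ℂ, Inv a η δ w ∧ (∀ z, w a z = 0) ∧
    (∀ s ∈ ball a η, ∀ z ∈ ball (0:ℂ) δ, ‖w s z‖ ≤ M * η) ∧
    (∀ s ∈ ball a η, ∀ z ∈ ball (0:ℂ) δ,
      HasDerivAt (fun s => w s z) (F s (z * Complex.exp (w s z))) s) := by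
  have hlim : ∀ s z : ℂ, ∃ l : ℂ, (s ∈ ball a η → z ∈ ball (0:ℂ) δ →
      Tendsto (fun n => WW F a n s z) atTop (𝓝 l)) ∧ (s = a → l = 0) := by
    intro s z
    by_cases h : s ∈ ball a η ∧ z ∈ ball (0:ℂ) δ
    · have hc : CauchySeq (fun n => WW F a n s z) := by
        apply cauchySeq_of_le_geometric (1/2) (1/2) (by norm_num)
        intro n
        rw [dist_comm, dist_eq_norm]
        exact WW_diff hF n s h.1 z h.2
      obtain ⟨l, hl⟩ := cauchySeq_tendsto_of_complete hc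
      refine ⟨l, fun _ _ => hl, ?_⟩
      intro hsa
      subst hsa
      have h0 : ∀ n, WW F s n s z = 0 := by
        intro n
        cases n with
        | zero => rfl
        | succ n => simp [WW, TT]
      simp only [h0] at hl
      exact (tendsto_nhds_unique hl tendsto_const_nhds)
    · exact ⟨0, fun h1 h2 => absurd ⟨h1, h2⟩ h, fun _ => rfl⟩
  choose w hw hwa using hlim
  have hrate : ∀ n, ∀ s ∈ ball a η, ∀ z ∈ ball (0:ℂ) δ, ‖WW F a n s z - w s z‖ ≤ (1/2)^n := by
    intro n s hs z hz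
    have h1 := dist_le_of_le_geometric_of_tendsto (1/2) (1/2) (by norm_num)
      (f := fun n => WW F a n s z)
      (fun n => by
        rw [dist_comm, dist_eq_norm]
        exact WW_diff hF n s hs z hz) (hw s z hs hz) n
    rw [dist_eq_norm] at h1
    calc _ ≤ _ := h1
      _ = _ := by ring
  have hpow : Tendsto (fun n : ℕ => (1/2 : ℝ)^n) atTop (𝓝 0) :=
    tendsto_pow_atTop_nhds_zero_of_lt_one (by norm_num) (by norm_num)
  have hinv : Inv a η δ w := by
    refine ⟨?_, ?_, ?_⟩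
    · intro z hz
      have hu : TendstoUniformlyOn (fun n s => WW F a n s z) (fun s => w s z) atTop (ball a η) := by
        rw [Metric.tendstoUniformlyOn_iff]
        intro ε hε
        filter_upwards [hpow.eventually (gt_mem_nhds hε)] with n hn s hs
        rw [dist_comm, dist_eq_norm]
        exact (hrate n s hs z hz).trans_lt hn
      exact hu.tendstoLocallyUniformlyOn.differentiableOn
        (Eventually.of_forall fun n => (WW_inv hF n).ds z hz) isOpen_ball
    · intro s hs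
      have hu : TendstoUniformlyOn (fun n z => WW F a n s z) (fun z => w s z) atTop
          (ball (0:ℂ) δ) := by
        rw [Metric.tendstoUniformlyOn_iff]
        intro ε hε
        filter_upwards [hpow.eventually (gt_mem_nhds hε)] with n hn z hz
        rw [dist_comm, dist_eq_norm]
        exact (hrate n s hs z hz).trans_lt hn
      exact hu.tendstoLocallyUniformlyOn.differentiableOn
        (Eventually.of_forall fun n => (WW_inv hF n).dz s hs) isOpen_ball
    · intro s hs z hz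
      exact le_of_tendsto (hw s z hs hz).norm
        (Eventually.of_forall fun n => (WW_inv hF n).bd s hs z hz)
  have hfix : ∀ s ∈ ball a η, ∀ z ∈ ball (0:ℂ) δ, TT F a w s z = w s z := by
    intro s hs z hz
    have h1 : Tendsto (fun n => WW F a (n+1) s z) atTop (𝓝 (w s z)) :=
      (tendsto_add_atTop_iff_nat 1).2 (hw s z hs hz)
    have h2 : Tendsto (fun n => WW F a (n+1) s z) atTop (𝓝 (TT F a w s z)) := by
      rw [tendsto_iff_norm_sub_tendsto_zero]
      apply squeeze_zero (fun _ => norm_nonneg _) (g := fun n => (1/2 : ℝ)^n / 2)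
      · intro n
        exact TT_lip hF (WW_inv hF n) hinv _ (hrate n) hs hz
      · have := hpow.div_const 2
        simpa using this
    exact tendsto_nhds_unique h2 h1
  refine ⟨w, hinv, fun z => hwa a z rfl, ?_, ?_⟩
  · intro s hs z hz
    rw [← hfix s hs z hz]
    exact TT_bound hF hinv hs hz
  · intro s hs z hz
    have h1 := TT_deriv hF hinv hs hz
    refine h1.congr_of_eventuallyEq ?_
    filter_upwards [isOpen_ball.mem_nhds hs] with x hx
    exact (hfix x hx z hz).symm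

/-- joint continuity -/
theorem joint_cont (hF : FH F a η δ M L) (hw : Inv a η δ w)
    (hd : ∀ s ∈ ball a η, ∀ z ∈ ball (0:ℂ) δ,
      HasDerivAt (fun s => w s z) (F s (z * Complex.exp (w s z))) s) :
    ContinuousOn (fun q : ℂ × ℂ => w q.1 q.2) (ball a η ×ˢ ball (0:ℂ) δ) := by
  have hlip : ∀ z ∈ ball (0:ℂ) δ, ∀ s ∈ ball a η, ∀ s' ∈ ball a η,
      ‖w s z - w s' z‖ ≤ M * ‖s - s'‖ := by
    intro z hz s hs s' hs'
    exact Convex.norm_image_sub_le_of_norm_hasDerivWithin_le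
      (f := fun s => w s z) (s := ball a η)
      (fun x hx => (hd x hx z hz).hasDerivWithinAt)
      (fun x hx => hF.bd x hx _ (arg_mem hw hx hz)) (convex_ball _ _) hs' hs
  rintro ⟨s₀, z₀⟩ ⟨hs₀, hz₀⟩
  rw [ContinuousWithinAt, tendsto_iff_norm_sub_tendsto_zero]
  have hb : ∀ᶠ q : ℂ × ℂ in 𝓝[ball a η ×ˢ ball (0:ℂ) δ] (s₀, z₀),
      ‖w q.1 q.2 - w s₀ z₀‖ ≤ M * ‖q.1 - s₀‖ + ‖w s₀ q.2 - w s₀ z₀‖ := by
    filter_upwards [self_mem_nhdsWithin] with q hq
    have h1 := hlip q.2 hq.2 q.1 hq.1 s₀ hs₀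
    have h2 := norm_sub_le_norm_sub_add_norm_sub (w q.1 q.2) (w s₀ q.2) (w s₀ z₀)
    linarith
  apply squeeze_zero' (Eventually.of_forall fun _ => norm_nonneg _) hb
  have hA : Tendsto (fun q : ℂ × ℂ => M * ‖q.1 - s₀‖)
      (𝓝[ball a η ×ˢ ball (0:ℂ) δ] (s₀, z₀)) (𝓝 0) := by
    have h3 : Continuous (fun q : ℂ × ℂ => M * ‖q.1 - s₀‖) := by fun_prop
    have h4 := (h3.tendsto (s₀, z₀)).mono_left
      (nhdsWithin_le_nhds (s := ball a η ×ˢ ball (0:ℂ) δ))
    simpa using h4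
  have hB : Tendsto (fun q : ℂ × ℂ => ‖w s₀ q.2 - w s₀ z₀‖)
      (𝓝[ball a η ×ˢ ball (0:ℂ) δ] (s₀, z₀)) (𝓝 0) := by
    rw [← tendsto_iff_norm_sub_tendsto_zero]
    have h5 : ContinuousAt (fun z => w s₀ z) z₀ :=
      ((hw.dz s₀ hs₀).differentiableAt (isOpen_ball.mem_nhds hz₀)).continuousAt
    have h6 : Tendsto (fun q : ℂ × ℂ => q.2) (𝓝[ball a η ×ˢ ball (0:ℂ) δ] (s₀, z₀)) (𝓝 z₀) :=
      (continuous_snd.tendsto (s₀, z₀)).mono_left nhdsWithin_le_nhds
    exact h5.tendsto.comp h6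
  have := hA.add hB
  simpa using this

end Pool.GL.Helper71
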