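import Pool.Agent.Helper99.GL.FSpec
import Pool.Agent.Helper71.GL.LocA

/-! Swarm GL, part F07: local families of solutions near the line at infinity. -/

set_option autoImplicit false

open Metric Set Filter Topology MeasureTheory

namespace Pool.GL.Helper71

theorem diffA (I : Inf) : Differentiable ℂ (fun q : ℂ × ℂ => I.A q.1 q.2) := by
  unfold Inf.A
  apply Differentiable.fun_sum
  intro m _
  apply Differentiable.mul
  · exact (differentiable_snd.pow m)
  · exact (I.a m).differentiable.comp differentiable_fst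

theorem diffB (I : Inf) : Differentiable ℂ (fun q : ℂ × ℂ => I.B q.1 q.2) := by
  unfold Inf.B
  apply Differentiable.fun_sum
  intro m _
  apply Differentiable.mul
  · exact (differentiable_snd.pow m)
  · exact (I.b m).differentiable.comp differentiable_fst

theorem B_zero (I : Inf) (s : ℂ) : I.B s 0 = (I.b 0).eval s := by
  unfold Inf.B
  rw [Finset.sum_eq_single 0]
  · simp
  · intro m _ hm
    simp [hm]
  · intro h
    simp at h

noncomputable def FF (I : Inf) (s z : ℂ) : ℂ := I.A s z / I.B s z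

theorem diffF (I : Inf) (q : ℂ × ℂ) (hq : I.B q.1 q.2 ≠ 0) :
    DifferentiableAt ℂ (fun q : ℂ × ℂ => FF I q.1 q.2) q := by
  unfold FF
  have hA : DifferentiableAt ℂ (fun q : ℂ × ℂ => I.A q.1 q.2) q := diffA I q
  have hB : DifferentiableAt ℂ (fun q : ℂ × ℂ => I.B q.1 q.2) q := diffB I q
  have h := hA.fun_mul (hB.fun_inv hq)
  simpa only [div_eq_mul_inv] using h

theorem diffFz (I : Inf) (s u : ℂ) (hq : I.B s u ≠ 0) :
    DifferentiableAt ℂ (FF I s) u := by
  have h1 := diffF I (s, u) hq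
  have h2 : DifferentiableAt ℂ (fun z : ℂ => (s, z)) u :=
    (differentiableAt_const s).prodMk differentiableAt_id
  exact DifferentiableAt.comp u h1 h2

/-- Lipschitz bound in `z` from a bound of the function -/
theorem lip_of_bound (f : ℂ → ℂ) (r M : ℝ) (hr : 0 < r)
    (hd : ∀ u : ℂ, ‖u‖ < r → DifferentiableAt ℂ f u) (hM : ∀ u : ℂ, ‖u‖ ≤ r → ‖f u‖ ≤ M)
    (x y : ℂ) (hx : ‖x‖ < r/2) (hy : ‖y‖ < r/2) : ‖f x - f y‖ ≤ M / (r/2) * ‖x - y‖ := by
  have hder : ∀ u ∈ ball (0:ℂ) (r/2), ‖deriv f u‖ ≤ M / (r/2) := by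
    intro u hu
    rw [mem_ball, dist_zero_right] at hu
    apply Complex.norm_deriv_le_of_forall_mem_sphere_norm_le (by linarith)
    · apply DifferentiableOn.diffContOnCl
      intro v hv
      have hv' := closure_ball_subset_closedBall hv
      rw [mem_closedBall, dist_eq_norm] at hv'
      apply (hd v _).differentiableWithinAt
      have := norm_sub_norm_le v u
      linarith
    · intro v hv
      rw [mem_sphere, dist_eq_norm] at hv
      apply hM
      have := norm_sub_norm_le v u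
      linarith
  exact Convex.norm_image_sub_le_of_norm_deriv_le (f := f) (s := ball (0:ℂ) (r/2))
    (fun u hu => hd u (by
      rw [mem_ball, dist_zero_right] at hu
      linarith)) hder (convex_ball _ _) (by simpa using hy) (by simpa using hx)

theorem F07 : S_LOC := by
  intro I K hK hKO
  set U : Set (ℂ × ℂ) := {q | I.B q.1 q.2 ≠ 0} with hU
  have hUo : IsOpen U := isOpen_ne_fun (diffB I).continuous continuous_const
  have hKU : K ×ˢ ({0} : Set ℂ) ⊆ U := by
    rintro ⟨s, z⟩ ⟨hs, hz⟩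
    simp only [mem_singleton_iff] at hz
    subst hz
    show I.B s 0 ≠ 0
    rw [B_zero]
    exact hKO hs
  have hKc : IsCompact (K ×ˢ ({0} : Set ℂ)) := hK.prod isCompact_singleton
  obtain ⟨r, hr, hrU⟩ := hKc.exists_cthickening_subset_open hUo hKU
  have hCc : IsCompact (cthickening r (K ×ˢ ({0} : Set ℂ))) := hKc.cthickening
  set C := cthickening r (K ×ˢ ({0} : Set ℂ)) with hC
  have hmemC : ∀ a ∈ K, ∀ s z : ℂ, ‖s - a‖ ≤ r → ‖z‖ ≤ r → (s, z) ∈ C := by
    intro a ha s z hs hz
    have ha0 : ((a, 0) : ℂ × ℂ) ∈ K ×ˢ ({0} : Set ℂ) := ⟨ha, rfl⟩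
    apply mem_cthickening_of_dist_le (s, z) (a, 0) r _ ha0
    rw [Prod.dist_eq, max_le_iff, dist_eq_norm, dist_zero_right]
    exact ⟨hs, hz⟩
  have hBC : ∀ q ∈ C, I.B q.1 q.2 ≠ 0 := fun q hq => hrU hq
  have hFc : ContinuousOn (fun q : ℂ × ℂ => I.A q.1 q.2 / I.B q.1 q.2) C :=
    (diffA I).continuous.continuousOn.div (diffB I).continuous.continuousOn hBC
  obtain ⟨M₀, hM₀⟩ := hCc.exists_bound_of_continuousOn hFc
  have hic : ContinuousOn (fun q : ℂ × ℂ => (I.B q.1 q.2)⁻¹) C :=
    (diffB I).continuous.continuousOn.inv₀ hBC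
  obtain ⟨N₀, hN₀⟩ := hCc.exists_bound_of_continuousOn hic
  set M := |M₀| + 1 with hMdef
  set N := |N₀| + 1 with hNdef
  have hMpos : 0 < M := by positivity
  have hNpos : 0 < N := by positivity
  have hM : ∀ q ∈ C, ‖I.A q.1 q.2 / I.B q.1 q.2‖ ≤ M := fun q hq =>
    (hM₀ q hq).trans (by linarith [le_abs_self M₀])
  have hN : ∀ q ∈ C, 1 / N ≤ ‖I.B q.1 q.2‖ := by
    intro q hq
    have h1 : ‖(I.B q.1 q.2)⁻¹‖ ≤ N := (hN₀ q hq).trans (by linarith [le_abs_self N₀])
    rw [norm_inv] at h1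
    have h2 : 0 < ‖I.B q.1 q.2‖ := norm_pos_iff.2 (hBC q hq)
    rw [one_div]
    exact inv_le_of_inv_le₀ h2 h1
  have huc := hCc.uniformContinuousOn_of_continuous (diffB I).continuous.continuousOn
  rw [Metric.uniformContinuousOn_iff] at huc
  obtain ⟨ρ, hρ, hρ2⟩ := huc (1 / (8 * N)) (by positivity)
  set δ := min (r/4) (ρ/3) with hδ
  have hδpos : 0 < δ := lt_min (by linarith) (by linarith)
  have hδ1 : δ ≤ r/4 := min_le_left _ _
  have hδ2 : δ ≤ ρ/3 := min_le_right _ _
  set η := min (min (r/2) ρ) (1 / (16 * ((I.d : ℝ) + 1) * M)) with hη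
  have hηpos : 0 < η := by
    apply lt_min (lt_min (by linarith) hρ)
    positivity
  have hη1 : η ≤ r/2 := (min_le_left _ _).trans (min_le_left _ _)
  have hη2 : η ≤ ρ := (min_le_left _ _).trans (min_le_right _ _)
  have hη3 : M * η * ((I.d : ℝ) + 1) ≤ 1/16 := by
    have h1 : η ≤ 1 / (16 * ((I.d : ℝ) + 1) * M) := min_le_right _ _
    have h2 : η * (16 * ((I.d : ℝ) + 1) * M) ≤ 1 := by
      rwa [le_div_iff₀ (by positivity)] at h1
    nlinarith
  have hη4 : M * η ≤ 1/16 := by
    have : M * η * 1 ≤ M * η * ((I.d : ℝ) + 1) := by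
      have : (0:ℝ) ≤ (I.d : ℝ) := Nat.cast_nonneg _
      gcongr
      linarith
    linarith
  refine ⟨η, hηpos, δ, hδpos, ?_⟩
  intro a ha
  have hsC : ∀ s ∈ ball a η, ∀ z ∈ ball (0:ℂ) (2*δ), (s, z) ∈ C := by
    intro s hs z hz
    rw [mem_ball, dist_eq_norm] at hs
    rw [mem_ball, dist_zero_right] at hz
    exact hmemC a ha s z (by linarith) (by linarith)
  have hFH : FH (FF I) a η δ M (M / (r/2)) := by
    refine ⟨hηpos, hδpos, hMpos.le, by positivity, ?_, ?_, ?_, by linarith, ?_⟩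
    · intro q hq
      exact (diffF I q (hBC (q.1, q.2) (hsC q.1 hq.1 q.2 hq.2))).differentiableWithinAt
    · intro s hs z hz
      exact hM (s, z) (hsC s hs z hz)
    · intro s hs x hx y hy
      rw [mem_ball, dist_eq_norm] at hs
      rw [mem_ball, dist_zero_right] at hx hy
      exact lip_of_bound (FF I s) r M hr
        (fun u hu => diffFz I s u (hBC (s, u) (hmemC a ha s u (by linarith) hu.le)))
        (fun u hu => hM (s, u) (hmemC a ha s u (by linarith) hu)) x y (by linarith) (by linarith)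
    · have h1 : (M / (r/2)) * δ ≤ M / 2 := by
        have h2 : (M / (r/2)) * δ ≤ (M / (r/2)) * (r/4) := by gcongr
        have h3 : (M / (r/2)) * (r/4) = M / 2 := by field_simp; ring
        linarith
      nlinarith
  obtain ⟨w, hw, hwa, hwb, hwd⟩ := picard hFH
  have hargC : ∀ s ∈ ball a η, ∀ z : ℂ, ‖z‖ < δ → (s, z * Complex.exp (w s z)) ∈ C := by
    intro s hs z hz
    exact hsC s hs _ (arg_mem hw hs (by simpa using hz))
  refine ⟨fun s z => z * Complex.exp (w s z), hηpos, hδpos, ?_, ?_, ?_, ?_, ?_, ?_, ?_⟩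
  · intro z _
    simp [hwa]
  · intro s _
    simp
  · intro z hz s hs
    have hz' : z ∈ ball (0:ℂ) δ := by simpa using hz
    refine ⟨hBC _ (hargC s hs z hz), ?_⟩
    have h1 := ((hwd s hs z hz').cexp).const_mul z
    have h2 : z * Complex.exp (w s z) * I.A s (z * Complex.exp (w s z)) /
        I.B s (z * Complex.exp (w s z)) =
        z * (Complex.exp (w s z) * FF I s (z * Complex.exp (w s z))) := by
      unfold FF
      ring
    show HasDerivAt (fun s => z * Complex.exp (w s z))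
      (z * Complex.exp (w s z) * I.A s (z * Complex.exp (w s z)) /
        I.B s (z * Complex.exp (w s z))) s
    rw [h2]
    exact h1
  · intro s hs
    exact differentiableOn_id.mul ((hw.dz s hs).cexp)
  · have h1 := joint_cont hFH hw hwd
    exact continuousOn_snd.mul h1.cexp
  · intro s hs z hz
    have hz' : z ∈ ball (0:ℂ) δ := by simpa using hz
    have h1 := exp_le_two (hw.bd s hs z hz')
    have h2 := exp_ge_half (hw.bd s hs z hz')
    have h3 := norm_nonneg z
    simp only [norm_mul]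
    constructor <;> nlinarith
  · intro s hs z hz
    have hz' : z ∈ ball (0:ℂ) δ := by simpa using hz
    have e1 := exp_le_two (hw.bd s hs z hz')
    have hs' : ‖s - a‖ < η := by simpa [mem_ball, dist_eq_norm] using hs
    set ζ := z * Complex.exp (w s z) with hζ
    have hζn : ‖ζ‖ ≤ 2 * ‖z‖ := by
      rw [hζ, norm_mul]
      have := norm_nonneg z
      nlinarith
    have hBB : ‖I.B a z - I.B s ζ‖ ≤ ‖I.B s ζ‖ / 8 := by
      have h1 := hρ2 (a, z) (hmemC a ha a z (by simpa using hr.le) (by linarith)) (s, ζ)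
        (hargC s hs z hz) (by
          rw [Prod.dist_eq, max_lt_iff, dist_eq_norm, dist_eq_norm]
          constructor
          · rw [norm_sub_rev]
            exact hs'.trans_le hη2
          · calc ‖z - ζ‖ ≤ ‖z‖ + ‖ζ‖ := norm_sub_le _ _
              _ ≤ 3 * ‖z‖ := by linarith
              _ < ρ := by linarith)
      rw [dist_eq_norm] at h1
      have h2 := hN _ (hargC s hs z hz)
      have h3 : 1 / (8 * N) = (1 / N) / 8 := by field_simp
      rw [h3] at h1
      linarith
    have hexp : ‖Complex.exp (w s z) ^ (I.d - 1) - 1‖ ≤ 1 / 8 := by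
      rw [← Complex.exp_nat_mul]
      have h1 : ‖((I.d - 1 : ℕ) : ℂ) * w s z‖ ≤ 1/16 := by
        rw [norm_mul, Complex.norm_natCast]
        have h2 := hwb s hs z hz'
        have h3 : ((I.d - 1 : ℕ) : ℝ) ≤ (I.d : ℝ) + 1 := by
          have : I.d - 1 ≤ I.d := Nat.sub_le _ _
          have : ((I.d - 1 : ℕ) : ℝ) ≤ (I.d : ℝ) := by exact_mod_cast this
          linarith
        calc _ ≤ ((I.d : ℝ) + 1) * (M * η) := by gcongr
          _ = M * η * ((I.d : ℝ) + 1) := by ring
          _ ≤ 1/16 := hη3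
      have h4 := Complex.norm_exp_sub_one_le (x := ((I.d - 1 : ℕ) : ℂ) * w s z) (by linarith)
      linarith
    have hid : ζ ^ (I.d - 1) * I.B a z - z ^ (I.d - 1) * I.B s ζ =
        z ^ (I.d - 1) * ((Complex.exp (w s z) ^ (I.d - 1) - 1) * I.B a z +
          (I.B a z - I.B s ζ)) := by
      rw [hζ, mul_pow]; ring
    rw [hid, norm_mul, norm_mul, mul_div_assoc]
    apply mul_le_mul_of_nonneg_left _ (norm_nonneg _)
    have h5 : ‖I.B a z‖ ≤ ‖I.B s ζ‖ + ‖I.B s ζ‖ / 8 := by
      have := norm_sub_norm_le (I.B a z) (I.B s ζ)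
      linarith
    calc _ ≤ ‖(Complex.exp (w s z) ^ (I.d - 1) - 1) * I.B a z‖ + ‖I.B a z - I.B s ζ‖ :=
          norm_add_le _ _
      _ ≤ (1/8) * (‖I.B s ζ‖ + ‖I.B s ζ‖ / 8) + ‖I.B s ζ‖ / 8 := by
          rw [norm_mul]
          gcongr
      _ ≤ ‖I.B s ζ‖ / 2 := by
          have := norm_nonneg (I.B s ζ)
          linarith

end Pool.GL.Helper71
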